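import Pool.Agent.X14.LG16

/-!
# Integrality of the normalised partial sums of the series with `(6k+1)`, ratio `216`, and `(8k+1)`, ratio `2304`
-/

set_option autoImplicit false

namespace Pool.Agent.Results.MP_e1e815_nt.Integrality

open Finset

/-- `a n = (1 / (n (2n+1) C(2n,n))) Σ_{j<n} 216^(n-1-j) (6j+1) C(2j,j)^2 C(3j,j)`. -/
def a (n : ℕ) : ℚ :=
  1 / ((n : ℚ) * (2 * n + 1) * ((2 * n).choose n : ℚ)) *
    ∑ j ∈ range n, 216 ^ (n - 1 - j) * (6 * (j : ℚ) + 1) * ((2 * j).choose j : ℚ) ^ 2 * ((3 * j).choose j : ℚ)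

/-- `b n = (1 / (2n (2n+1) C(2n,n))) Σ_{j<n} 2304^(n-1-j) (8j+1) (4j)!/(j!)^4`. -/
def b (n : ℕ) : ℚ :=
  1 / (2 * (n : ℚ) * (2 * n + 1) * ((2 * n).choose n : ℚ)) *
    ∑ j ∈ range n, 2304 ^ (n - 1 - j) * (8 * (j : ℚ) + 1) * (((4 * j).factorial : ℚ) / (j.factorial : ℚ) ^ 4)

/-- For every `n > 1`: if `2n+1` is not a power of `3` then `a n` and `b n` are integers; if `2n+1` is a
power of `3` then `3 a n` and `3 b n` are integers and neither is divisible by `3`. -/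
theorem result (n : ℕ) (hn : 1 < n) :
    ((¬ ∃ m : ℕ, 2 * n + 1 = 3 ^ m) → (∃ z : ℤ, a n = z) ∧ (∃ z : ℤ, b n = z)) ∧
    ((∃ m : ℕ, 2 * n + 1 = 3 ^ m) →
      (∃ z : ℤ, 3 * a n = z ∧ ¬ (3 : ℤ) ∣ z) ∧ (∃ z : ℤ, 3 * b n = z ∧ ¬ (3 : ℤ) ∣ z)) := by
  obtain ⟨r, rfl⟩ : ∃ r, n = r + 1 := ⟨n - 1, by omega⟩
  have ea : a (r + 1) = Pool.Agent.X14.LG.a6 (r + 1) := by
    unfold a Pool.Agent.X14.LG.a6
    rw [div_mul_eq_mul_div, one_mul]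
  have eb : b (r + 1) = Pool.Agent.X14.LG.b8 (r + 1) := by
    unfold b Pool.Agent.X14.LG.b8
    rw [div_mul_eq_mul_div, one_mul]
  have e2 : 2 * (r + 1) + 1 = 2 * r + 3 := by ring
  rw [ea, eb, e2]
  exact ⟨fun h => ⟨Pool.Agent.X14.LG.a6_int r (by omega) h, Pool.Agent.X14.LG.b8_int r (by omega) h⟩,
    fun h => ⟨Pool.Agent.X14.LG.a6_special r (by omega) h, Pool.Agent.X14.LG.b8_special r (by omega) h⟩⟩

end Pool.Agent.Results.MP_e1e815_nt.Integrality
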